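import Pool.Agent.helper35.DR.SpecT

set_option autoImplicit false

namespace Pool.Agent.DR

open Pool.Agent.helper58.DC Pool.Agent.DI

theorem TIS_eq (hIRF : Pool.Agent.helper58.DC.IRF_stmt) (Γ : Type) [Group Γ] [Finite Γ]
    (K : Subgroup Γ) (ψ φ : Γ → ℂ) (hψ : ψ ∈ IrrOn K) (hφ : φ ∈ IrrOn K) (e : ℕ)
    (he : ∀ x ∈ K, φ x = e * ψ x) : φ = ψ := by
  have h1 := (hIRF K).2 _ hψ.2
  have h2 := (hIRF K).2 _ hφ.2
  have h3 : ∑ᶠ g : K, ((e : ℂ) * ψ (g : Γ)) * ((e : ℂ) * ψ ((g⁻¹ : K) : Γ)) = Nat.card K := by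
    rw [← h2.2.2]
    apply finsum_congr
    intro g
    rw [he _ g.2, he _ (g⁻¹ : K).2]
  have h4 : ((e : ℂ) * e) * ∑ᶠ g : K, ψ (g : Γ) * ψ ((g⁻¹ : K) : Γ) = Nat.card K := by
    rw [← h3, mul_finsum]
    apply finsum_congr
    intro g
    ring
  rw [h1.2.2] at h4
  have hc : (Nat.card K : ℂ) ≠ 0 := by
    have : 0 < Nat.card K := Nat.card_pos
    exact_mod_cast this.ne'
  have h5 : (e : ℂ) * e = 1 := mul_right_cancel₀ hc (by rw [h4, one_mul])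
  have h6 : e = 1 := by
    have : e * e = 1 := by exact_mod_cast h5
    exact Nat.eq_one_of_mul_eq_one_right this
  funext x
  by_cases hx : x ∈ K
  · rw [he x hx, h6, Nat.cast_one, one_mul]
  · rw [hφ.1 x hx, hψ.1 x hx]

theorem TIS (hIRF : Pool.Agent.helper58.DC.IRF_stmt) : TIS_stmt := by
  intro Γ _ _ p _ K S ψ hψ hinv D
  constructor
  · intro hD
    unfold inn
    rw [Nat.card_eq_one_iff_unique]
    refine ⟨⟨?_⟩, ⟨⟨ψ, hψ, ⟨1, fun x _ => by rw [Nat.cast_one, one_mul]⟩, hinv, hD⟩⟩⟩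
    rintro ⟨a, ha, ⟨e, he⟩, -, -⟩ ⟨b, hb, ⟨e', he'⟩, -, -⟩
    apply Subtype.ext
    exact (TIS_eq hIRF Γ K ψ a hψ ha e he).trans (TIS_eq hIRF Γ K ψ b hψ hb e' he').symm
  · intro hD
    unfold inn
    have : IsEmpty {φ : Γ → ℂ // φ ∈ IrrOn K ∧ (∃ e : ℕ, ∀ x ∈ K, φ x = e * ψ x) ∧
      (∀ s ∈ S, funMap (MulAut.conj s) φ = φ) ∧ Defect p K φ D} := by
      constructor
      rintro ⟨a, ha, ⟨e, he⟩, -, hd⟩
      rw [TIS_eq hIRF Γ K ψ a hψ ha e he] at hd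
      exact hD hd
    exact Nat.card_of_isEmpty

end Pool.Agent.DR
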